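import Mathlib

set_option autoImplicit false

/-!
Linear extensions of finite posets on `Fin n`, adding a least element and adding an element which
is incomparable to everything.
-/

namespace Pool.Agent.H293R3.BC

open Finset

/-- insertion of a new first element with value `p` into a permutation -/
def ins {n : ℕ} (p : Fin (n + 1)) (σ : Equiv.Perm (Fin n)) : Equiv.Perm (Fin (n + 1)) :=
  (finSuccEquiv' 0).trans ((Equiv.optionCongr σ).trans (finSuccEquiv' p).symm)

theorem ins_zero {n : ℕ} (p : Fin (n + 1)) (σ : Equiv.Perm (Fin n)) : ins p σ 0 = p := by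
  simp [ins]

theorem ins_succ {n : ℕ} (p : Fin (n + 1)) (σ : Equiv.Perm (Fin n)) (i : Fin n) :
    ins p σ i.succ = p.succAbove (σ i) := by
  have h : finSuccEquiv' (0 : Fin (n + 1)) i.succ = some i := by
    rw [← Fin.succAbove_zero, finSuccEquiv'_succAbove]
  simp [ins, h]

/-- insertions give all permutations -/
noncomputable def insE (n : ℕ) : Fin (n + 1) × Equiv.Perm (Fin n) ≃ Equiv.Perm (Fin (n + 1)) :=
  Equiv.ofBijective (fun q => ins q.1 q.2) (by
    rw [Fintype.bijective_iff_injective_and_card]
    constructor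
    · rintro ⟨p, σ⟩ ⟨q, τ⟩ h
      have h : ins p σ = ins q τ := h
      have hp : p = q := by rw [← ins_zero p σ, ← ins_zero q τ, h]
      subst hp
      have hσ : σ = τ := by
        ext i
        have h1 : ins p σ i.succ = ins p τ i.succ := by rw [h]
        rw [ins_succ, ins_succ] at h1
        rw [Fin.succAbove_right_injective h1]
      rw [hσ]
    · rw [Fintype.card_prod, Fintype.card_perm, Fintype.card_perm, Fintype.card_fin,
        Fintype.card_fin, Nat.factorial_succ])

/-- linear extensions -/
def LE {n : ℕ} (r : Fin n → Fin n → Prop) (σ : Equiv.Perm (Fin n)) : Prop :=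
  ∀ a b, r a b → σ a ≤ σ b

open Classical in
/-- sums over the linear extensions -/
noncomputable def T {n : ℕ} (r : Fin n → Fin n → Prop) (f : Equiv.Perm (Fin n) → ℝ) : ℝ :=
  ∑ σ, if LE r σ then f σ else 0

/-- extension of a relation by a new element `0`, below everything if `c` holds and incomparable
to everything otherwise -/
def ext (c : Prop) {n : ℕ} (r : Fin n → Fin n → Prop) (a b : Fin (n + 1)) : Prop :=
  Fin.cases (motive := fun _ => Prop) (Fin.cases (motive := fun _ => Prop) True (fun _ => c) b)
    (fun i => Fin.cases (motive := fun _ => Prop) False (fun j => r i j) b) a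

variable {n : ℕ} {r : Fin n → Fin n → Prop}

@[simp] theorem ext_zz (c : Prop) : ext c r 0 0 ↔ True := Iff.rfl
@[simp] theorem ext_zs (c : Prop) (j : Fin n) : ext c r 0 j.succ ↔ c := Iff.rfl
@[simp] theorem ext_sz (c : Prop) (i : Fin n) : ext c r i.succ 0 ↔ False := Iff.rfl
@[simp] theorem ext_ss (c : Prop) (i j : Fin n) : ext c r i.succ j.succ ↔ r i j := Iff.rfl

theorem LE_false (p : Fin (n + 1)) (σ : Equiv.Perm (Fin n)) :
    LE (ext False r) (ins p σ) ↔ LE r σ := by
  constructor
  · intro h a b hab
    have := h a.succ b.succ (by simpa using hab)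
    rw [ins_succ, ins_succ, Fin.succAbove_le_succAbove_iff] at this
    exact this
  · intro h a b hab
    rcases Fin.eq_zero_or_eq_succ a with rfl | ⟨i, rfl⟩ <;>
      rcases Fin.eq_zero_or_eq_succ b with rfl | ⟨j, rfl⟩
    · exact le_rfl
    · exact absurd hab (by simp)
    · exact absurd hab (by simp)
    · rw [ins_succ, ins_succ, Fin.succAbove_le_succAbove_iff]
      exact h i j (by simpa using hab)

theorem LE_true (p : Fin (n + 1)) (σ : Equiv.Perm (Fin n)) :
    LE (ext True r) (ins p σ) ↔ p = 0 ∧ LE r σ := by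
  constructor
  · intro h
    have hp : p = 0 := by
      have hall : ∀ b, ins p σ 0 ≤ ins p σ b := by
        intro b
        rcases Fin.eq_zero_or_eq_succ b with rfl | ⟨j, rfl⟩
        · exact le_rfl
        · exact h 0 j.succ (by simp)
      have h1 := hall ((ins p σ).symm 0)
      rw [ins_zero, Equiv.apply_symm_apply] at h1
      exact Fin.le_zero_iff.1 h1
    refine ⟨hp, ?_⟩
    intro a b hab
    have := h a.succ b.succ (by simpa using hab)
    rw [ins_succ, ins_succ, Fin.succAbove_le_succAbove_iff] at this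
    exact this
  · rintro ⟨rfl, h⟩ a b hab
    rcases Fin.eq_zero_or_eq_succ a with rfl | ⟨i, rfl⟩ <;>
      rcases Fin.eq_zero_or_eq_succ b with rfl | ⟨j, rfl⟩
    · exact le_rfl
    · rw [ins_zero]; exact Fin.zero_le _
    · exact absurd hab (by simp)
    · rw [ins_succ, ins_succ, Fin.succAbove_le_succAbove_iff]
      exact h i j (by simpa using hab)

theorem T_false (f : Equiv.Perm (Fin (n + 1)) → ℝ) :
    T (ext False r) f = T r fun σ => ∑ p, f (ins p σ) := by
  classical
  unfold T
  rw [← (insE n).sum_comp, Fintype.sum_prod_type_right]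
  refine sum_congr rfl fun σ _ => ?_
  have h : ∀ p, insE n (p, σ) = ins p σ := fun p => rfl
  simp only [h, LE_false]
  split_ifs with h1
  · rfl
  · simp

theorem T_true (f : Equiv.Perm (Fin (n + 1)) → ℝ) :
    T (ext True r) f = T r fun σ => f (ins 0 σ) := by
  classical
  unfold T
  rw [← (insE n).sum_comp, Fintype.sum_prod_type_right]
  refine sum_congr rfl fun σ _ => ?_
  have h : ∀ p, insE n (p, σ) = ins p σ := fun p => rfl
  simp only [h, LE_true]
  rw [sum_eq_single 0]
  · simp
  · intro p _ hp
    rw [if_neg]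
    exact fun h => hp h.1
  · intro h
    exact absurd (mem_univ _) h

theorem T_add (f g : Equiv.Perm (Fin n) → ℝ) : T r (fun σ => f σ + g σ) = T r f + T r g := by
  classical
  unfold T
  rw [← sum_add_distrib]
  refine sum_congr rfl fun σ _ => ?_
  split_ifs <;> simp

theorem T_mul (c : ℝ) (f : Equiv.Perm (Fin n) → ℝ) : T r (fun σ => c * f σ) = c * T r f := by
  classical
  unfold T
  rw [mul_sum]
  refine sum_congr rfl fun σ _ => ?_
  split_ifs <;> simp

theorem T_mono {f g : Equiv.Perm (Fin n) → ℝ} (h : ∀ σ, f σ ≤ g σ) : T r f ≤ T r g := by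
  classical
  unfold T
  refine sum_le_sum fun σ _ => ?_
  split_ifs
  · exact h σ
  · exact le_rfl

/-- number of linear extensions -/
noncomputable def E {n : ℕ} (r : Fin n → Fin n → Prop) : ℝ := T r fun _ => 1

/-- number of linear extensions with `x` before `y` -/
noncomputable def A {n : ℕ} (r : Fin n → Fin n → Prop) (x y : Fin n) : ℝ :=
  T r fun σ => if σ x < σ y then 1 else 0

/-- sum of the ranks -/
noncomputable def S {n : ℕ} (r : Fin n → Fin n → Prop) (y : Fin n) : ℝ :=
  T r fun σ => ((σ y : ℕ) : ℝ) + 1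

/-- average height -/
noncomputable def ht {n : ℕ} (r : Fin n → Fin n → Prop) (y : Fin n) : ℝ := S r y / E r

theorem sum_lt (m : Fin n) :
    ∑ p : Fin (n + 1), (if p < p.succAbove m then (1:ℝ) else 0) = (m : ℕ) + 1 := by
  simp only [Fin.lt_succAbove_iff_le_castSucc]
  rw [← sum_filter, sum_const, nsmul_eq_mul, mul_one]
  have : (univ.filter fun p : Fin (n + 1) => p ≤ m.castSucc) = Iic m.castSucc := by
    ext p; simp
  rw [this, Fin.card_Iic]
  simp

theorem sum_gt (m : Fin n) :
    ∑ p : Fin (n + 1), (if p.succAbove m < p then (1:ℝ) else 0) = (n : ℝ) + 1 - ((m : ℕ) + 1) := by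
  have h1 := sum_lt m
  have h2 : ∑ p : Fin (n + 1), ((if p < p.succAbove m then (1:ℝ) else 0) +
      (if p.succAbove m < p then (1:ℝ) else 0)) = (n : ℝ) + 1 := by
    have : ∀ p : Fin (n + 1), ((if p < p.succAbove m then (1:ℝ) else 0) +
      (if p.succAbove m < p then (1:ℝ) else 0)) = 1 := by
      intro p
      rcases lt_trichotomy p (p.succAbove m) with h | h | h
      · rw [if_pos h, if_neg h.not_gt, add_zero]
      · exact absurd h (Fin.succAbove_ne p m).symm
      · rw [if_neg h.not_gt, if_pos h, zero_add]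
    simp [this]
  rw [sum_add_distrib, h1] at h2
  linarith

theorem sum_rank (m : Fin n) :
    ∑ p : Fin (n + 1), (((p.succAbove m : Fin (n + 1)) : ℕ) + 1 : ℝ) =
      ((n : ℝ) + 2) * ((m : ℕ) + 1) := by
  have h : ∀ p : Fin (n + 1), (((p.succAbove m : Fin (n + 1)) : ℕ) + 1 : ℝ) =
      ((m : ℕ) + 1 : ℝ) + (if p < p.succAbove m then (1:ℝ) else 0) := by
    intro p
    by_cases hp : p ≤ m.castSucc
    · rw [if_pos ((Fin.lt_succAbove_iff_le_castSucc p m).2 hp), Fin.succAbove_of_le_castSucc _ _ hp]
      simp
    · rw [if_neg (fun h => hp ((Fin.lt_succAbove_iff_le_castSucc p m).1 h)),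
        Fin.succAbove_of_castSucc_lt _ _ (not_le.1 hp)]
      simp
  simp only [h]
  rw [sum_add_distrib, sum_lt]
  simp
  ring

theorem sum_all (n : ℕ) : ∑ p : Fin (n + 1), ((p : ℕ) + 1 : ℝ) = ((n : ℝ) + 1) * (n + 2) / 2 := by
  rw [Fin.sum_univ_eq_sum_range (fun i => ((i : ℕ) + 1 : ℝ)) (n + 1)]
  induction n with
  | zero => norm_num
  | succ n ih =>
    rw [sum_range_succ, ih]
    push_cast
    ring

/-! ### adding a least element -/

theorem E_true : E (ext True r) = E r := by
  unfold E; rw [T_true]

theorem A_true (x y : Fin n) : A (ext True r) x.succ y.succ = A r x y := by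
  unfold A
  rw [T_true]
  congr 1
  funext σ
  simp only [ins_succ, Fin.succAbove_lt_succAbove_iff]

theorem S_true_zero : S (ext True r) 0 = E r := by
  unfold S E
  rw [T_true]
  congr 1
  funext σ
  simp [ins_zero]

theorem S_true_succ (y : Fin n) : S (ext True r) y.succ = S r y + E r := by
  unfold S E
  rw [T_true, ← T_add]
  congr 1
  funext σ
  simp [ins_succ]

/-! ### adding an incomparable element -/

theorem E_false : E (ext False r) = ((n : ℝ) + 1) * E r := by
  unfold E
  rw [T_false, ← T_mul]
  congr 1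
  funext σ
  simp

theorem A_false (x y : Fin n) : A (ext False r) x.succ y.succ = ((n : ℝ) + 1) * A r x y := by
  unfold A
  rw [T_false, ← T_mul]
  congr 1
  funext σ
  simp only [ins_succ, Fin.succAbove_lt_succAbove_iff]
  simp

theorem A_false_zs (y : Fin n) : A (ext False r) 0 y.succ = S r y := by
  unfold A S
  rw [T_false]
  congr 1
  funext σ
  simp only [ins_succ, ins_zero]
  exact sum_lt (σ y)

theorem A_false_sz (y : Fin n) : A (ext False r) y.succ 0 = ((n : ℝ) + 1) * E r - S r y := by
  have h1 : T r (fun σ => ∑ p, (if ins p σ y.succ < ins p σ 0 then (1:ℝ) else 0)) =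
      T r (fun σ => ((n : ℝ) + 1) * 1 + (-1) * (((σ y : ℕ) : ℝ) + 1)) := by
    congr 1
    funext σ
    simp only [ins_succ, ins_zero]
    rw [sum_gt]
    ring
  unfold A
  rw [T_false, h1, T_add, T_mul, T_mul]
  unfold E S
  ring

theorem S_false_zero : S (ext False r) 0 = ((n : ℝ) + 1) * (n + 2) / 2 * E r := by
  unfold S E
  rw [T_false, ← T_mul]
  congr 1
  funext σ
  simp only [ins_zero]
  rw [sum_all, mul_one]

theorem S_false_succ (y : Fin n) : S (ext False r) y.succ = ((n : ℝ) + 2) * S r y := by
  unfold S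
  rw [T_false, ← T_mul]
  congr 1
  funext σ
  simp only [ins_succ]
  exact sum_rank (σ y)

end Pool.Agent.H293R3.BC
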